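import Pool.Agent.TMC.StC

/-!
# TMC, module REV (helper25): the mirror image of a list of places
-/

set_option autoImplicit false

namespace Pool.TMC

open Pool.Agent.ARB Pool.Agent.Helper2 Pool.ALT Pool.TWC

/-- the difference of the entries `i` and `i + 2` of the row above -/
private def REV_df (n i : ℕ) : (Rw n × Rw n) →ₗ[ZMod 3] ZMod 3 :=
  (en n i - en n (i + 2)) ∘ₗ LinearMap.snd (ZMod 3) (Rw n) (Rw n)

/-- the row above is `1` in the gap `j` and `0` elsewhere, the row below is zero -/
private def REV_un (n j : ℕ) : Rw n × Rw n := (0, Pi.single (Fin.ofNat (n + 1) j) 1)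

/-- one more place below -/
private noncomputable def REV_op (ρ : Bool) (n i : ℕ)
    (G : Submodule (ZMod 3) (Rw n × Rw n)) : Submodule (ZMod 3) (Rw n × Rw n) :=
  if decide (i % 2 = 0) = ρ then G ⊓ LinearMap.ker (df n i)
    else G ⊔ Submodule.span (ZMod 3) {un n (i + 1)}

/-- one more place above -/
private noncomputable def REV_op' (ρ : Bool) (n i : ℕ)
    (G : Submodule (ZMod 3) (Rw n × Rw n)) : Submodule (ZMod 3) (Rw n × Rw n) :=
  if decide (i % 2 = 0) = ρ then G ⊓ LinearMap.ker (REV_df n i)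
    else G ⊔ Submodule.span (ZMod 3) {REV_un n (i + 1)}

private theorem REV_cons (ρ : Bool) (n i : ℕ) (P : List ℕ) :
    GR ρ n (i :: P) = REV_op ρ n i (GR ρ n P) := rfl

/-- a kernel below and a span above commute -/
private theorem REV_ks {n : ℕ} (G K : Submodule (ZMod 3) (Rw n × Rw n)) (v : Rw n × Rw n)
    (hv : v ∈ K) : (G ⊔ Submodule.span (ZMod 3) {v}) ⊓ K =
      (G ⊓ K) ⊔ Submodule.span (ZMod 3) {v} := by
  have h1 : Submodule.span (ZMod 3) {v} ≤ K := by
    rw [Submodule.span_le]
    intro x hx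
    rw [Set.mem_singleton_iff.1 hx]
    exact hv
  rw [sup_comm, sup_inf_assoc_of_le G h1, sup_comm]

private theorem REV_comm (ρ : Bool) (n i j : ℕ) (G : Submodule (ZMod 3) (Rw n × Rw n)) :
    REV_op ρ n j (REV_op' ρ n i G) = REV_op' ρ n i (REV_op ρ n j G) := by
  have h1 : REV_un n (i + 1) ∈ LinearMap.ker (df n j) := by
    rw [LinearMap.mem_ker]
    show (en n j - en n (j + 2)) (0 : Rw n) = 0
    rw [map_zero]
  have h2 : un n (j + 1) ∈ LinearMap.ker (REV_df n i) := by
    rw [LinearMap.mem_ker]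
    show (en n i - en n (i + 2)) (0 : Rw n) = 0
    rw [map_zero]
  unfold REV_op REV_op'
  by_cases hj : decide (j % 2 = 0) = ρ
  · by_cases hi : decide (i % 2 = 0) = ρ
    · rw [if_pos hj, if_pos hi, if_pos hi, if_pos hj]
      exact inf_right_comm _ _ _
    · rw [if_pos hj, if_neg hi, if_neg hi, if_pos hj]
      exact REV_ks G _ _ h1
  · by_cases hi : decide (i % 2 = 0) = ρ
    · rw [if_neg hj, if_pos hi, if_pos hi, if_neg hj]
      exact (REV_ks G _ _ h2).symm
    · rw [if_neg hj, if_neg hi, if_neg hi, if_neg hj]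
      exact sup_right_comm _ _ _

/-- the vector above from the vector below and conversely -/
private theorem REV_mem (ρ : Bool) (n i : ℕ) (hi : decide (i % 2 = 0) ≠ ρ) (hn : i + 2 ≤ n) :
    ((Pi.single (Fin.ofNat (n + 1) (i + 1)) 1, Pi.single (Fin.ofNat (n + 1) (i + 1)) 1) :
      Rw n × Rw n) ∈ DG ρ n := by
  refine ⟨rfl, ?_⟩
  intro j hj
  show (Pi.single (Fin.ofNat (n + 1) (i + 1)) (1 : ZMod 3) : Rw n) j = 0
  refine Pi.single_eq_of_ne ?_ _
  rintro rfl
  have h1 : (Fin.ofNat (n + 1) (i + 1) : Fin (n + 1)).val = i + 1 := by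
    show (i + 1) % (n + 1) = i + 1
    exact Nat.mod_eq_of_lt (by omega)
  rw [h1] at hj
  rcases Nat.mod_two_eq_zero_or_one i with h2 | h2
  · have h3 : (i + 1) % 2 = 1 := by omega
    rw [h2] at hi
    rw [h3] at hj
    rcases ρ with _ | _
    · exact hj (by decide)
    · exact hi (by decide)
  · have h3 : (i + 1) % 2 = 0 := by omega
    rw [h2] at hi
    rw [h3] at hj
    rcases ρ with _ | _
    · exact hi (by decide)
    · exact hj (by decide)

/-- the identity -/
private theorem REV_DG (ρ : Bool) (n i : ℕ) (hn : i + 2 ≤ n) :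
    REV_op ρ n i (DG ρ n) = REV_op' ρ n i (DG ρ n) := by
  unfold REV_op REV_op'
  by_cases hi : decide (i % 2 = 0) = ρ
  · rw [if_pos hi, if_pos hi]
    ext p
    rw [Submodule.mem_inf, Submodule.mem_inf, LinearMap.mem_ker, LinearMap.mem_ker]
    constructor
    · rintro ⟨h1, h2⟩
      refine ⟨h1, ?_⟩
      have h3 : (en n i - en n (i + 2)) p.1 = 0 := h2
      show (en n i - en n (i + 2)) p.2 = 0
      rw [← h1.1]
      exact h3
    · rintro ⟨h1, h2⟩
      refine ⟨h1, ?_⟩
      have h3 : (en n i - en n (i + 2)) p.2 = 0 := h2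
      show (en n i - en n (i + 2)) p.1 = 0
      rw [h1.1]
      exact h3
  · rw [if_neg hi, if_neg hi]
    have h1 := REV_mem ρ n i hi hn
    have h2 : un n (i + 1) = (Pi.single (Fin.ofNat (n + 1) (i + 1)) 1,
        Pi.single (Fin.ofNat (n + 1) (i + 1)) 1) - REV_un n (i + 1) := by
      refine Prod.ext ?_ ?_
      · exact (sub_zero _).symm
      · exact (sub_self _).symm
    have h3 : REV_un n (i + 1) = (Pi.single (Fin.ofNat (n + 1) (i + 1)) 1,
        Pi.single (Fin.ofNat (n + 1) (i + 1)) 1) - un n (i + 1) := by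
      refine Prod.ext ?_ ?_
      · exact (sub_self _).symm
      · exact (sub_zero _).symm
    refine le_antisymm (sup_le le_sup_left ?_) (sup_le le_sup_left ?_)
    · rw [Submodule.span_le]
      intro x hx
      rw [Set.mem_singleton_iff.1 hx, h2]
      exact Submodule.sub_mem _ (Submodule.mem_sup_left h1)
        (Submodule.mem_sup_right (Submodule.mem_span_singleton_self _))
    · rw [Submodule.span_le]
      intro x hx
      rw [Set.mem_singleton_iff.1 hx, h3]
      exact Submodule.sub_mem _ (Submodule.mem_sup_left h1)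
        (Submodule.mem_sup_right (Submodule.mem_span_singleton_self _))

/-- one more place at the end of the list -/
private theorem REV_append (ρ : Bool) (n i : ℕ) (hn : i + 2 ≤ n) (P : List ℕ) :
    GR ρ n (P ++ [i]) = REV_op' ρ n i (GR ρ n P) := by
  induction P with
  | nil => exact REV_DG ρ n i hn
  | cons j P ih =>
    rw [List.cons_append, REV_cons, ih, REV_comm, REV_cons]

private theorem REV_sw {n : ℕ} (p : Rw n × Rw n) : sw n (sw n p) = p := rfl

private theorem REV_comap (ρ : Bool) (n i : ℕ) (G : Submodule (ZMod 3) (Rw n × Rw n)) :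
    REV_op' ρ n i (G.comap (sw n)) = (REV_op ρ n i G).comap (sw n) := by
  unfold REV_op REV_op'
  by_cases hi : decide (i % 2 = 0) = ρ
  · rw [if_pos hi, if_pos hi]
    rfl
  · rw [if_neg hi, if_neg hi]
    ext p
    rw [Submodule.mem_comap, Submodule.mem_sup, Submodule.mem_sup]
    constructor
    · rintro ⟨g, hg, x, hx, rfl⟩
      obtain ⟨c, rfl⟩ := Submodule.mem_span_singleton.1 hx
      refine ⟨sw n g, hg, c • un n (i + 1),
        Submodule.smul_mem _ _ (Submodule.mem_span_singleton_self _), ?_⟩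
      rw [map_add, map_smul]
      rfl
    · rintro ⟨g, hg, x, hx, hp⟩
      obtain ⟨c, rfl⟩ := Submodule.mem_span_singleton.1 hx
      refine ⟨sw n g, hg, c • REV_un n (i + 1),
        Submodule.smul_mem _ _ (Submodule.mem_span_singleton_self _), ?_⟩
      have h1 : sw n (g + c • un n (i + 1)) = p := by
        rw [hp]
        rfl
      rw [map_add, map_smul] at h1
      exact h1

/-- REV -/
theorem thm_REV : St_REV := by
  intro ρ n P
  induction P with
  | nil =>
    intro _
    rw [List.reverse_nil]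
    ext p
    rw [Submodule.mem_comap]
    constructor
    · rintro ⟨h1, h2⟩
      refine ⟨h1.symm, ?_⟩
      show p.2 ∈ Mk ρ n
      rw [← h1]
      exact h2
    · rintro ⟨h1, h2⟩
      have h1' : p.2 = p.1 := h1
      have h2' : p.2 ∈ Mk ρ n := h2
      refine ⟨h1'.symm, ?_⟩
      rw [← h1']
      exact h2'
  | cons i P ih =>
    intro hP
    rw [List.reverse_cons, REV_append ρ n i (hP i List.mem_cons_self),
      ih (fun j hj => hP j (List.mem_cons_of_mem _ hj)), REV_comap, REV_cons]

end Pool.TMC
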