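import Pool.Agent.TWC.StB

/-!
# TMC: states of full twists as relations between rows of colours

Part (C) of the theorem on full twists along many arcs. The state of a full twist of `w` strands is a word `EL P`, `P` a
list of places `i` with `i + 2 ≤ w` (bottom to top), `EL P = E_i E_i' ⋯` with `E_i` = a cap and a cup at `i`. In the colour model
of the parity `ρ` it acts on rows of colours of the gaps `0, ..., n` by a linear relation `GR ρ n P`. `par i = decide (i % 2 = 0)`;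
`masked` = zero at the gaps whose parity is not `ρ`. Every statement has its complete proof in the docstring.
-/

set_option autoImplicit false

namespace Pool.TMC

open LaurentPolynomial Pool.Agent.ARB Pool.Agent.Helper2 Pool.ALT Pool.TWC

/-! ### relations -/

/-- colours of the gaps `0, ..., n` -/
abbrev Rw (n : ℕ) : Type := Fin (n + 1) → ZMod 3

/-- the entry of the gap `j` -/
def en (n j : ℕ) : Rw n →ₗ[ZMod 3] ZMod 3 := LinearMap.proj (Fin.ofNat (n + 1) j)

/-- the difference of the entries `i` and `i + 2` of the row below -/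
def df (n i : ℕ) : (Rw n × Rw n) →ₗ[ZMod 3] ZMod 3 :=
  (en n i - en n (i + 2)) ∘ₗ LinearMap.fst (ZMod 3) (Rw n) (Rw n)

/-- the row below is `1` in the gap `j` and `0` elsewhere, the row above is zero -/
def un (n j : ℕ) : Rw n × Rw n := (Pi.single (Fin.ofNat (n + 1) j) 1, 0)

/-- zero at the gaps of the wrong parity -/
def Mk (ρ : Bool) (n : ℕ) : Submodule (ZMod 3) (Rw n) where
  carrier := {x | ∀ j : Fin (n + 1), decide (j.val % 2 = 0) ≠ ρ → x j = 0}
  add_mem' := by
    intro x y hx hy j hj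
    show x j + y j = 0
    rw [hx j hj, hy j hj, add_zero]
  zero_mem' := fun _ _ => rfl
  smul_mem' := by
    intro c x hx j hj
    show c * x j = 0
    rw [hx j hj, mul_zero]

/-- equal rows -/
def DG (ρ : Bool) (n : ℕ) : Submodule (ZMod 3) (Rw n × Rw n) where
  carrier := {p | p.1 = p.2 ∧ p.1 ∈ Mk ρ n}
  add_mem' := by
    rintro p q ⟨a1, a2⟩ ⟨b1, b2⟩
    exact ⟨by show p.1 + q.1 = p.2 + q.2; rw [a1, b1], (Mk ρ n).add_mem a2 b2⟩
  zero_mem' := ⟨rfl, (Mk ρ n).zero_mem⟩
  smul_mem' := by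
    rintro c p ⟨a1, a2⟩
    exact ⟨by show c • p.1 = c • p.2; rw [a1], (Mk ρ n).smul_mem c a2⟩

/-- the relation of the list of places `P` (bottom to top) on `n` strands -/
noncomputable def GR (ρ : Bool) (n : ℕ) : List ℕ → Submodule (ZMod 3) (Rw n × Rw n)
  | [] => DG ρ n
  | i :: P => if decide (i % 2 = 0) = ρ then GR ρ n P ⊓ LinearMap.ker (df n i)
      else GR ρ n P ⊔ Submodule.span (ZMod 3) {un n (i + 1)}

open Classical in
/-- the exponent of `√3` -/
noncomputable def ge (ρ : Bool) (n : ℕ) : List ℕ → ℤ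
  | [] => 0
  | i :: P => if decide (i % 2 = 0) = ρ then ge ρ n P + 1
      else ge ρ n P - 1 + (if un n (i + 1) ∈ GR ρ n P then 2 else 0)

/-- a cap and a cup at every place of the list -/
def EL (P : List ℕ) : Word := P.flatMap fun i => [pN i, pU i]

/-- the number of gaps of parity `ρ` among `0, ..., n` -/
def gn (ρ : Bool) (n : ℕ) : ℕ := ((Finset.range (n + 1)).filter fun j => decide (j % 2 = 0) = ρ).card

/-- exchange the row below and the row above -/
def sw (n : ℕ) : (Rw n × Rw n) →ₗ[ZMod 3] Rw n × Rw n :=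
  (LinearMap.snd (ZMod 3) (Rw n) (Rw n)).prod (LinearMap.fst (ZMod 3) (Rw n) (Rw n))

/-- the row of the entries `0, ..., n` of parity `ρ` -/
def mk (ρ : Bool) (n : ℕ) (c : Cg) : Rw n := fun j => if decide (j.val % 2 = 0) = ρ then c j.val else 0

/-- a row as an infinite row -/
def ex {n : ℕ} (x : Rw n) : Cg := fun j => x (Fin.ofNat (n + 1) j)

/-- [ENC] PROOF. All by induction on `P`. (1) rows in `GR` are masked, with equal entries at the gaps `0` and `n`: `un n (i + 1)` is zero there, because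
`0 < i + 1 < n`, and masked, because `par (i + 1) = ρ` when it is added. (2) the constant row `1` on the gaps of parity `ρ` is in `GR`: `df` vanishes on it. (3) the dimension of `DG` is `gn`
(`DG ≃ Mk`, a masked row is a function on the gaps of parity `ρ`). (4) `0 ≤ ge - gn + finrank GR`: `[]`: `0`. `par i = ρ`: `ge` grows by `1` and the dimension of the intersection with the kernel of one functional
is smaller by at most `1`. `par i ≠ ρ`: if `un ∈ GR` the relation does not change and `ge` grows by `1`; otherwise the dimension grows by `1` and `ge` decreases by `1`. -/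
def St_ENC : Prop := ∀ (ρ : Bool) (n : ℕ) (P : List ℕ), (∀ i ∈ P, i + 2 ≤ n) →
  (∀ p ∈ GR ρ n P, p.1 ∈ Mk ρ n ∧ p.2 ∈ Mk ρ n ∧ en n 0 p.1 = en n 0 p.2 ∧ en n n p.1 = en n n p.2) ∧
  (mk ρ n (fun _ => 1), mk ρ n (fun _ => 1)) ∈ GR ρ n P ∧
  Module.finrank (ZMod 3) (DG ρ n) = gn ρ n ∧
  0 ≤ ge ρ n P - gn ρ n + Module.finrank (ZMod 3) (GR ρ n P)

/-- [REV] the mirror image.
PROOF. Let `df' i` be the functional `df i` of the row above, `un' j` the row above `1` at `j`, `op i G = G ⊓ ker (df i)` resp. `G ⊔ span {un (i + 1)}`, `op' i` the same with `df'`, `un'`. (A) `GR (P ++ [i]) = op' i (GR P)`: induction on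
`P`. `[]`: `DG ⊓ ker (df i) = DG ⊓ ker (df' i)` and `DG ⊔ span {un} = DG ⊔ span {un'}` because `(e, e) ∈ DG` (the gap `i + 1` has parity `ρ`). `j :: P`: `op j (op' i G) = op' i (op j G)`: two kernels or two spans: clear; one kernel and one span: the modular law, `un' (i + 1)` is in
`ker (df j)` and `un (j + 1) ∈ ker (df' i)` (the other row is zero). (B) `GR ((i :: P).reverse) = GR (P.reverse ++ [i]) = op' i (comap sw (GR P)) = comap sw (op i (GR P))` (`sw` is an involution: `comap sw = map sw`, it commutes with `⊓`, `⊔`, `span`). -/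
def St_REV : Prop := ∀ (ρ : Bool) (n : ℕ) (P : List ℕ), (∀ i ∈ P, i + 2 ≤ n) →
  GR ρ n P.reverse = (GR ρ n P).comap (sw n)

/-- the colour of the gap `a + j` seen from the gap `a` -/
def lp (ρ : Bool) (a : ℕ) : Bool := if a % 2 = 0 then ρ else !ρ

/-- the entries `a, ..., a + w` of both rows -/
def lr (n a w : ℕ) : (Rw n × Rw n) →ₗ[ZMod 3] Rw w × Rw w where
  toFun p := (fun t => p.1 (Fin.ofNat (n + 1) (a + t.val)), fun t => p.2 (Fin.ofNat (n + 1) (a + t.val)))
  map_add' _ _ := rfl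
  map_smul' _ _ := rfl

/-- the places of all arcs on the line -/
def PL {g : ℕ} (a : Fin g → ℕ) (L : Fin g → List ℕ) : List ℕ :=
  (List.ofFn fun i => (L i).map (· + a i)).flatten

/-- [LOC] PROOF. Write `Z i` for the submodule of the pairs which are masked, satisfy `x j = z j` for `j ≤ n` not strictly inside of an arc, and whose local rows at the arcs `i' ≠ i` are in given submodules; `Z i` contains `un n j` for the gaps `j` of parity `ρ` strictly inside of the arc `i` (the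
arcs are disjoint, their common gaps are ends). CLAIM: if `GR ρ n P' = comap (lr i) (DG (lp ρ (a i)) (w i)) ⊓ Z i` (the arc `i` carries the identity) then for every valid list `L`: `GR ρ n (L + a i ++ P') = comap (lr i) (GR (lp ρ (a i)) (w i) L) ⊓ Z i` and `ge ρ n (L + a i ++ P') = ge ... L + ge ρ n P'`. Induction on `L`:
`j :: L`, `par (j + a i) = ρ` iff `par j = lp ρ (a i)`; kernel case: `ker (df n (j + a i)) = comap (lr i) (ker (df (w i) j))` (`j + 2 ≤ w i`, `a i + w i ≤ n`); span case: modular law, `un n (j + 1 + a i) ∈ Z i`, and `comap (lr i) R ⊔ span {un n (j+1+a i)} = comap (lr i) (R ⊔ span {un (w i) (j + 1)})` (`lr i` maps the first vector to the second);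
`un n (..) ∈ GR` iff `un (w i) (j + 1) ∈ GR (lp ..) (w i) L`. Then induct on the number of arcs (the list `PL` is `L 0 + a 0 ++ (L 1 + a 1 ++ ...)`; start with the last arc: `GR ρ n [] = DG`, all local relations are `DG`): for a set `J` of the last arcs: local relation `GR .. (L i)` for `i ∈ J` and `DG` for the others. For `i ∉ J` the condition
`lr i p ∈ DG` together with masks and equality outside is equality everywhere. -/
def St_LOC : Prop := ∀ (ρ : Bool) (n g : ℕ) (a w : Fin g → ℕ) (L : Fin g → List ℕ),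
  (∀ i, a i + w i ≤ n) → (∀ i j : Fin g, i < j → a i + w i ≤ a j) → (∀ i, ∀ j ∈ L i, j + 2 ≤ w i) →
  (∀ p : Rw n × Rw n, p ∈ GR ρ n (PL a L) ↔ (p.1 ∈ Mk ρ n ∧ p.2 ∈ Mk ρ n) ∧
    (∀ j ≤ n, (¬ ∃ i : Fin g, a i < j ∧ j < a i + w i) → en n j p.1 = en n j p.2) ∧
    ∀ i, lr n (a i) (w i) p ∈ GR (lp ρ (a i)) (w i) (L i)) ∧
  ge ρ n (PL a L) = ∑ i, ge (lp ρ (a i)) (w i) (L i)

/-! ### the colour model -/

/-- [KOP] the operator of `EL P` in the colour model.
PROOF. `EO i ψ = M.cup i (M.cap i ψ)`. `par i = ρ`: `EO i ψ c = if c i = c (i + 2) then √3 ψ c else 0` (`ins3 i 0 (dl3 i c)` has the same entries of parity `ρ` as `c` if `c i = c (i+2)`; `Supp`). `par i ≠ ρ`: `EO i ψ c = √3⁻¹ ∑_b ψ (c with the entry i + 1 replaced by b)`. Induction on `P` for all `ψ`: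
`runC M (EL (i :: P)) ψ = runC M (EL P) (EO i ψ)`, which is `√3 ^ ge P ∑_{x : (x, mk c') ∈ GR P} (EO i ψ) (ex x)` (`Supp n (EO i ψ)`). Kernel case: `∑ over x with x i = x (i + 2)`, factor `√3`. Other case: `√3⁻¹ ∑_x ∑_b ψ (ex x[i+1 := b]) = √3⁻¹ ∑_{x'} N(x') ψ (ex x')`, `N(x')` = the number of `b` with
`(x'[i+1 := b], mk c') ∈ GR P`; it is `0` unless `(x', mk c') ∈ GR P ⊔ span {un (i + 1)}`, and then it is `3` if `un (i + 1) ∈ GR P` and `1` otherwise. -/
def St_KOP : Prop := ∀ (ρ : Bool) (M : Model ℝ (Cg → ℝ)), CM ρ M → ∀ (n : ℕ) (P : List ℕ),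
  (∀ i ∈ P, i + 2 ≤ n) → ∀ (ψ : Cg → ℝ), M.Supp n ψ → ∀ c' : Cg,
  open Classical in
  runC M (EL P) ψ c' = Real.sqrt 3 ^ ge ρ n P *
    ∑ x ∈ Finset.univ.filter (fun x : Rw n => (x, mk ρ n c') ∈ GR ρ n P), ψ (ex x)

/-- colourings of the regions of parity `ρ` of `u` and of `v` (no condition in the middle row) -/
def Fr (ρ : Bool) (u v : Word) : Submodule (ZMod 3) (Lv u v) where
  carrier := {p | ((∀ x, pa 0 u x ≠ ρ → p.1 x = 0) ∧ (∀ x, pa (wd 0 u) v x ≠ ρ → p.2 x = 0)) ∧
    ((∀ x y, R0 0 u x y → p.1 x = p.1 y) ∧ (∀ x y, R0 (wd 0 u) v x y → p.2 x = p.2 y))}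
  add_mem' := by
    rintro p q ⟨⟨a1, a2⟩, a3, a4⟩ ⟨⟨b1, b2⟩, b3, b4⟩
    refine ⟨⟨fun x hx => ?_, fun x hx => ?_⟩, fun x y h => ?_, fun x y h => ?_⟩
    · show p.1 x + q.1 x = 0
      rw [a1 x hx, b1 x hx, add_zero]
    · show p.2 x + q.2 x = 0
      rw [a2 x hx, b2 x hx, add_zero]
    · show p.1 x + q.1 x = p.1 y + q.1 y
      rw [a3 x y h, b3 x y h]
    · show p.2 x + q.2 x = p.2 y + q.2 y
      rw [a4 x y h, b4 x y h]
  zero_mem' := ⟨⟨fun _ _ => rfl, fun _ _ => rfl⟩, fun _ _ _ => rfl, fun _ _ _ => rfl⟩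
  smul_mem' := by
    rintro c p ⟨⟨a1, a2⟩, a3, a4⟩
    refine ⟨⟨fun x hx => ?_, fun x hx => ?_⟩, fun x y h => ?_, fun x y h => ?_⟩
    · show c * p.1 x = 0
      rw [a1 x hx, mul_zero]
    · show c * p.2 x = 0
      rw [a2 x hx, mul_zero]
    · show c * p.1 x = c * p.1 y
      rw [a3 x y h]
    · show c * p.2 x = c * p.2 y
      rw [a4 x y h]

/-- the rows below and above the line between `u` and `v` -/
def mr (u v : Word) : Lv u v →ₗ[ZMod 3] Rw (wd 0 u) × Rw (wd 0 u) where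
  toFun p := (fun j => p.1 (tp 0 u j.val), fun j => p.2 (bo (wd 0 u) v j.val))
  map_add' _ _ := rfl
  map_smul' _ _ := rfl

/-- colourings whose rows at the line are in the relation `Q`, equal at the crossings in `S` -/
noncomputable def Cq (ρ : Bool) (u v : Word) (S : Finset (Fin (nX (u ++ v))))
    (Q : Submodule (ZMod 3) (Rw (wd 0 u) × Rw (wd 0 u))) : Submodule (ZMod 3) (Lv u v) :=
  (Fr ρ u v ⊓ ⨅ k, ⨅ _ : k ∈ S, LinearMap.ker (Lk ρ u v (k : ℕ))) ⊓ Q.comap (mr u v)

/-- [CIRC] the number of circles of a state with the word `EL P` in the line (compare [CNT], `TWC/CNT.lean`).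
PROOF (from CMD, TR3, KOP, ENC). In a colour model `M` of parity `ρ` ([CMD]) at the row `d = 0` on `0` strands: the left side of `h` is `√3 ^ L`. [TR3] for `v`: the sum over the colourings `g` of `v`, `g (tp 0) = 0` if `ρ = true`, of `√3 ^ gam ρ _ v * (runC (EL P) φ) (row g)`, `φ = runC M (jo B u) init`; [KOP]:
`√3 ^ ge * ∑ φ (ex x)` over the `x` with `(x, mk (row g)) ∈ GR ρ n P`; [TR3] for `u` (`ψ = 1`): `√3 ^ gam ρ B u` times the number of colourings `f` of `u` with top row `x` (`x` is masked, [ENC] (1)). So the pairs `(f, g)` counted are the elements `p` of `Cq ρ u v S (GR ρ n P)`, `S = {k | B k = ρ}`, with `p.2 (tp 0) = 0` if `ρ = true`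
(for `ρ = false` this value is zero anyway). `gam ρ B (u ++ v) = gam ρ B u + gam ρ (fun k => B (k + nX u)) v`. The number of elements is `3 ^ finrank`; for `ρ = true` the condition `p.2 (tp 0) = 0` is one linear functional on `Cq`, not zero, because the colouring `1` on all local regions of parity `ρ` is in `Cq` ([ENC] (2)): its kernel
has dimension `finrank Cq - 1` and `Cq` has dimension `≥ 1`. Compare exponents of `√3`. -/
def St_CIRC : Prop := ∀ (B : ℕ → Bool) (u v : Word) (P : List ℕ) (L : ℕ), Ok u 0 (wd 0 u) →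
  Ok v (wd 0 u) 0 → (∀ i ∈ P, i + 2 ≤ wd 0 u) →
  (∀ {R V : Type} [CommRing R] [AddCommGroup V] [Module R V] (M : Model R V),
    runC M (jo (fun k => B (k + nX u)) v) (runC M (EL P) (runC M (jo B u) M.init)) =
      M.δ ^ L • M.init) →
  ∀ ρ : Bool, (L : ℤ) = gam ρ B (u ++ v) + ge ρ (wd 0 u) P - (if ρ = true then 2 else 0) +
    2 * (Module.finrank (ZMod 3) (Cq ρ u v (Finset.univ.filter fun k => B (k : ℕ) = ρ)
      (GR ρ (wd 0 u) P)) : ℤ)

/-! ### closures -/

/-- the row of `2 w` strands which is symmetric about the gap `w` -/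
def mi (w : ℕ) (x : Rw w) : Cg := fun j => if j ≤ w then x (Fin.ofNat (w + 1) j) else x (Fin.ofNat (w + 1) (2 * w - j))

/-- the number of places `< w` of parity `ρ` -/
def np (ρ : Bool) (w : ℕ) : ℕ := ((Finset.range w).filter fun j => decide (j % 2 = 0) = ρ).card

/-- [CPS] closing in the colour model.
PROOF. `cups (m + 1) = cups m ++ [pU m]`, `caps (m + 1) = pN m :: caps m` (as in `TWC/PS3.lean`). (1) induction on `w`: `cup_w ψ c`: `par w = ρ`: `[c w = c (w + 2)] √3 ψ (dl3 w c)`, `par w ≠ ρ`: `ψ (dl3 w c)`. (2) induction on `w` for all `Φ`: `runC M (caps (w+1)) Φ 0 = runC M (caps w) (cap_w Φ) 0 = √3 ^ (- np (!ρ) w) ∑_x (cap_w Φ) (mi w x)`;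
`par w = ρ`: `(cap_w Φ)(mi w x) = Φ (ins3 w 0 (mi w x)) = Φ (mi (w+1) x')`, `x' = x` extended by the value `0` at the gap `w + 1` of the wrong parity (`Supp`); `par w ≠ ρ`: `√3⁻¹ ∑_b Φ (mi (w+1) (x, b))`. -/
def St_CPS : Prop := ∀ (ρ : Bool) (M : Model ℝ (Cg → ℝ)), CM ρ M → ∀ w : ℕ,
  (∀ c : Cg, open Classical in runC M (cups w) M.init c = if ∀ j ≤ w, decide ((w + j) % 2 = 0) = ρ → c (w + j) = c (w - j)
    then Real.sqrt 3 ^ np ρ w else 0) ∧
  ∀ Φ : Cg → ℝ, M.Supp (2 * w) Φ → open Classical in runC M (caps w) Φ (fun _ => 0) = (Real.sqrt 3 ^ np (!ρ) w)⁻¹ *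
    ∑ x ∈ Finset.univ.filter (fun x : Rw w => x ∈ Mk ρ w ∧ (ρ = true → en w 0 x = 0)), Φ (mi w x)

/-- antiperiodic (`s = -1`) and periodic (`s = 1`) rows, zero at both ends -/
def RS (ρ : Bool) (s : ZMod 3) (w : ℕ) : Submodule (ZMod 3) (Rw w × Rw w) where
  carrier := {p | (p.1 ∈ Mk ρ w ∧ p.2 = s • p.1) ∧ en w 0 p.1 = 0 ∧ en w w p.1 = 0}
  add_mem' := by
    rintro p q ⟨⟨a1, a2⟩, a3, a4⟩ ⟨⟨b1, b2⟩, b3, b4⟩
    refine ⟨⟨(Mk ρ w).add_mem a1 b1, ?_⟩, ?_, ?_⟩
    · show p.2 + q.2 = s • (p.1 + q.1)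
      rw [a2, b2, smul_add]
    · show en w 0 (p.1 + q.1) = 0
      rw [map_add, a3, b3, add_zero]
    · show en w w (p.1 + q.1) = 0
      rw [map_add, a4, b4, add_zero]
  zero_mem' := ⟨⟨(Mk ρ w).zero_mem, by show (0 : Rw w) = s • 0; rw [smul_zero]⟩, map_zero _, map_zero _⟩
  smul_mem' := by
    rintro c p ⟨⟨a1, a2⟩, a3, a4⟩
    refine ⟨⟨(Mk ρ w).smul_mem c a1, ?_⟩, ?_, ?_⟩
    · show c • p.2 = s • (c • p.1)
      rw [a2, smul_comm]
    · show en w 0 (c • p.1) = 0
      rw [map_smul, a3, smul_zero]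
    · show en w w (c • p.1) = 0
      rw [map_smul, a4, smul_zero]

/-- [CLO] the circles of the closure of `P` and `P'`.
PROOF (from CMD, CPS, KOP, LOC, ENC). In a colour model at the row `0`: `√3 ^ L`. `φ = runC (cups w) init`; [KOP] twice with `n = 2 w` and [LOC] for one arc (`g = 1`, `a = 0`, `w`, `n = 2 w`; `PL = P`): for `c' = mi w z`: `(runC (EL P') (runC (EL P) φ)) (mi w z) = √3 ^ (ge P + ge P') ∑ φ (ex x)` over `x`, `y : Rw (2 w)` with `(y, mk (mi w z)) ∈ GR (2w) P'`,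
`(x, y) ∈ GR (2w) P`: outside of the gaps strictly inside `0..w` all three rows are equal, so `y`, `x` are determined by their local rows `y'`, `x' : Rw w`, `(y', z) ∈ GR w P'`, `(x', y') ∈ GR w P`, and `φ (ex x) = √3 ^ np ρ w` iff `x' = z`, else `0` (the right halves are the mirror image of `z`; the entries of the wrong parity do not matter). [CPS] (2): so
`√3 ^ L = √3 ^ (ge P + ge P' + np ρ w - np (!ρ) w)` times the number of the pairs `(z, y') ∈ GR w P ⊓ comap sw (GR w P')` with `z 0 = 0` if `ρ = true`. `np ρ w - np (!ρ) w = gm ρ w`. For `ρ = true` the functional `z 0` is not zero on this space ([ENC] (2)). -/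
def St_CLO : Prop := ∀ (w : ℕ) (P P' : List ℕ) (L : ℕ), (∀ i ∈ P, i + 2 ≤ w) → (∀ i ∈ P', i + 2 ≤ w) →
  (∀ {R V : Type} [CommRing R] [AddCommGroup V] [Module R V] (M : Model R V),
    runC M (caps w) (runC M (EL P') (runC M (EL P) (runC M (cups w) M.init))) = M.δ ^ L • M.init) →
  ∀ ρ : Bool, (L : ℤ) = gm ρ w + ge ρ w P + ge ρ w P' - (if ρ = true then 2 else 0) +
    2 * (Module.finrank (ZMod 3) (GR ρ w P ⊓ (GR ρ w P').comap (sw w) : Submodule (ZMod 3) (Rw w × Rw w)) : ℤ)

/-- [POL] a pole below `P'`, closed.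
PROOF (from CMD, PS3, CPS, KOP, LOC, MHT, PAR). `m ≡ w` mod 2: `h` is `Pr B (cups w) (EL P' ++ caps w) w l m` for any `B` (the words have no crossings, `jo` is the identity on them), [MHT] gives a height function with difference `m` and [PAR] `m ≡ w`. `h` for the colour model and the pole `PG ρ s`, `s = ± 1`, at the row `0`: left side: `√3 ^ l` times the value of [PS3], exponent
`l + gm ρ m (+ 2 fr ρ m for s = 1)`. Right side as in [CLO] with `P` replaced by the pole: `PG ρ s w φ c = φ (tws s w c)` if `c 0 = 0` (for `ρ = true`) and `c w = 0` (for `par w = ρ`), otherwise `0`: pairs `(z, y')` with `(y', z) ∈ GR w P'`, `z = ` the row below the pole, `z = tws s w y'`, zero at the ends, i.e. `(z, y') ∈ RS ρ s w` (`s * s = 1`): so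
`√3 ^ (ge P' + np ρ w - np (!ρ) w) * 3 ^ finrank (RS ρ s w ⊓ comap sw (GR w P'))`. `gm ρ m = gm ρ w = np ρ w - np (!ρ) w`. -/
def St_POL : Prop := ∀ (w : ℕ) (P' : List ℕ) (l m : ℕ), (∀ i ∈ P', i + 2 ≤ w) →
  (∀ {R V : Type} [CommRing R] [AddCommGroup V] [Module R V] (M : Model R V) (Q : ℕ → V → V),
    Cc M → Pole M Q →
    runC M (caps w) (runC M (EL P') (Q w (runC M (cups w) M.init))) = M.δ ^ l • Psi M Q m) →
  m % 2 = w % 2 ∧ ∀ ρ : Bool,
    (l : ℤ) = ge ρ w P' + 2 * (Module.finrank (ZMod 3)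
      (RS ρ (-1) w ⊓ (GR ρ w P').comap (sw w) : Submodule (ZMod 3) (Rw w × Rw w)) : ℤ) ∧
    (l : ℤ) + 2 * fr ρ m = ge ρ w P' + 2 * (Module.finrank (ZMod 3)
      (RS ρ 1 w ⊓ (GR ρ w P').comap (sw w) : Submodule (ZMod 3) (Rw w × Rw w)) : ℤ)

end Pool.TMC
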