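import Pool.Agent.TMC.StC
import Pool.Agent.TMX.DefD
import Pool.Agent.TMX.EXT
import Pool.Agent.TMX.INQ
import Pool.Agent.TMW.Defs

/-!
# TMC: statements, second part (expansion, sharp degree bound of the coefficients, degree bound of all states)

`Row w = Rw w` (both are `Fin (w + 1) → ZMod 3`). Every statement has its complete proof in the docstring.
-/

set_option autoImplicit false

namespace Pool.TMC

open LaurentPolynomial Pool.Agent.ARB Pool.Agent.Helper2 Pool.ALT Pool.TWC Pool.TMX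

/-- the places of the horizontal smoothings of the state `B` of a word of crossings -/
def pcs : (ℕ → Bool) → Word → List ℕ
  | _, [] => []
  | B, ⟨.X _, i⟩ :: W => if B 0 = decide (i % 2 = 0) then i :: pcs (fun k => B (k + 1)) W
      else pcs (fun k => B (k + 1)) W
  | B, _ :: W => pcs B W

/-- the states of `k` full twists of `w` strands (as in `TMW/Defs.lean`) -/
abbrev Sx (w : ℕ) (k : ℤ) : Type := Finset (Fin (nX (FT w k)))

/-- the places of a state -/
def pl (w : ℕ) (k : ℤ) (t : Sx w k) : List ℕ := pcs (st true t) (FT w k)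

/-- [XPW] PROOF. `FT w k` is a word of crossings `pX j p` with `j + 2 ≤ w` (empty for `w ≤ 1`). (1) `jo B W = EL (pcs B W)` for a word `W` of crossings: induction on `W`; places: clear. (2) for a word `W` of crossings: `runW M (sh a W) x = ∑ over t : Finset (Fin (nX W)) of T (wt (st true t) W) • runC M (EL ((pcs (st true t) W).map (· + a))) x`: induction on `W` for all `x` as in
`TWC/EXP.lean` (`ALT/Mo/HE.lean`): `crossOp M (i + a) p y = T c • y + T (-c) • cup (cap y)`, `c = 1` for `p = true`, `-1` otherwise; the sets `t` for `pX i p :: W` are `t' + 1` and `insert 0 (t' + 1)`; `wt` adds `-c` for the cup and cap, `c` for the identity. (3) `sh a (EL P) = EL (P.map (· + a))`, `Yw a (fun i => EL (P i)) = EL (PL a P)` (`List.ofFn`, `flatten`). -/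
def St_XPW : Prop := (∀ (V : Type) [AddCommGroup V] [Module LP V] (M : Model LP V),
    ∀ (a w : ℕ) (k : ℤ) (x : V), runW M (sh a (FT w k)) x =
      ∑ t : Sx w k, (T (TMW.wt (st true t) (FT w k)) : LP) •
        runC M (EL ((pl w k t).map (· + a))) x) ∧
  (∀ (w : ℕ) (k : ℤ) (t : Sx w k), TMW.yw w k t = EL (pl w k t) ∧ ∀ i ∈ pl w k t, i + 2 ≤ w) ∧
  (∀ (a : ℕ) (P : List ℕ), sh a (EL P) = EL (P.map (· + a))) ∧
  ∀ (g : ℕ) (a : Fin g → ℕ) (P : Fin g → List ℕ), TMW.Yw a (fun i => EL (P i)) = EL (PL a P)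

/-- the number of closed circles of a list of places -/
noncomputable def ee (ρ : Bool) (n : ℕ) (P : List ℕ) : ℕ :=
  (ge ρ n P - gn ρ n + Module.finrank (ZMod 3) (GR ρ n P)).toNat

open Classical in
/-- the coefficient of the relation `R` in `k` full twists of `w` strands, normalized -/
noncomputable def xR (ρ : Bool) (w : ℕ) (k : ℤ) (R : Submodule (ZMod 3) (Rw w × Rw w)) : LP :=
  ∑ t : Sx w k, if GR ρ w (pl w k t) = R then
    TMW.xw w k t * loopVal ^ ee ρ w (pl w k t) else 0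

/-- the degree of `Ph k m`, `m` of the parity of `w` -/
def dph (τ k : ℤ) (w : ℕ) : ℤ := if w % 2 = 0 then 0 else 2 + 3 * (τ * k)

/-- [XR] the sharp degree bound of the coefficients.
PROOF (from CLO, POL, REV, ENC, EXT, XPW, and TMD, PHI, PHT, FTP, PR, N1, N2, P1 of TWC). Let `I` be the type of the relations `R` of the form `GR ρ w (pl t)`. `d R R' = finrank R + finrank R' - 2 finrank (R ⊓ R')`, `l R = 2 finrank (R ⊓ RS ρ (-1) w) + gn ρ w - finrank R` (integers), `K` a number such that `K + w - d R R' ≥ 0`, `K + l R ≥ 0` for all `R`, `R'`. Apply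
[EXT] with `w + K` for `w`, `l R + K` for `l R`, `x = xR`. (1) THE EQUATIONS. `R' = GR ρ w L'`, `L' = pl t'`, `P' = L'.reverse`: by [REV] `comap sw (GR P') = R'`. In the tensor model [TMD] (or any good model over `LP`) let `l'`, `m'` be as in [POL] for `P'` (they exist by [PR] for the words `cups w`, `EL P' ++ caps w` without crossings): for the pole `PF M k` ([FTP]) and [PHI]:
`runC (caps w) (runC (EL P') (PF M k w (runC (cups w) init))) = (loopVal ^ l' * Ph k m') • init`. Expand `PF M k w` by [XPW] (`a = 0`, `runC` is linear; `PF M k w = T (3 k w) • runW M (FT w k)`, `xw = T (3 k w + wt)`): `∑_t xw t • loopVal ^ L t • init`, `L t` the number of [CLO] for `pl t`, `P'` (a closed word without crossings is in every model a power of `δ`: [P1], see `TWC/CIR.lean`). [CLO] and `gm ρ w + 2 gn ρ w - 2 [ρ = true] = w` (parities), `ge = ee + gn - finrank GR` ([ENC] (4)),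
`finrank GR P' = finrank R'`: `L t = ee (pl t) + ee P' + w - d R R'`. [POL]: `l' = ee P' + l R'`. Cancel `loopVal ^ ee P'` (`LP` is a domain, `loopVal ≠ 0`) after multiplication with `loopVal ^ K`: `∑_R loopVal ^ (w + K - d R R') * xR R = loopVal ^ (l R' + K) * Ph k m'`. `m' ≡ w`, so `Le τ (dph τ k w) (Ph k m')` by [PHT]. (2) `d R R = 0`, `d R R' > 0` for `R ≠ R'`;
`l R ≤ l R' + d R R'`: `finrank (R ⊓ N) + finrank (R ⊓ R') ≤ finrank R + finrank (R' ⊓ N)` because `(R ⊓ N) ⊔ (R ⊓ R') ≤ R` and `(R ⊓ N) ⊓ (R ⊓ R') ≤ R' ⊓ N`. (3) If `R` is not in `I` then `xR R = 0`. Last claim: for `R = GR ρ w L` [POL] for `P' = L.reverse` gives `finrank (RS 1 ⊓ R) - finrank (RS (-1) ⊓ R) = fr ρ m' ≥ 0`. -/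
def St_XR : Prop := ∀ (ρ : Bool) (w : ℕ) (k τ : ℤ), (τ = 1 ∨ τ = -1) → τ * k < 0 →
  (∀ R : Submodule (ZMod 3) (Rw w × Rw w), Le τ
    (2 * (2 * (Module.finrank (ZMod 3) (R ⊓ RS ρ (-1) w : Submodule (ZMod 3) (Rw w × Rw w)) : ℤ) +
      gn ρ w - Module.finrank (ZMod 3) R - w) + dph τ k w) (xR ρ w k R)) ∧
  ∀ L : List ℕ, (∀ i ∈ L, i + 2 ≤ w) →
    Module.finrank (ZMod 3) (GR ρ w L ⊓ RS ρ (-1) w : Submodule (ZMod 3) (Rw w × Rw w)) ≤
      Module.finrank (ZMod 3) (GR ρ w L ⊓ RS ρ 1 w : Submodule (ZMod 3) (Rw w × Rw w))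

/-- [RCN] the boundary conditions of `TMX/DefD.lean` for a relation `R = GR (lp ρ a) w L`.
PROOF (from ENC, XR). `par ρ (a + j)` iff `decide (j % 2 = 0) = lp ρ a`. (1) `R ⊓ RNeg w = R ⊓ RS (lp ρ a) (-1) w`, `R ⊓ RPer w = R ⊓ RS (lp ρ a) 1 w` (rows in `R` are masked and equal at the ends). (2) `R ⊓ RCon ρ a w ⊇ R ⊓ RPer w`; if no end has parity `ρ` they are equal (masked rows are zero at the ends); otherwise `R ⊓ RPer w` is the kernel on
`R ⊓ RCon ρ a w` of the value at one end of parity `ρ` (if both have parity `ρ` the values are equal), which is not zero at the constant row ([ENC] (2)): dimension one less. (3) by (1), (2) and the last claim of [XR]. -/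
def St_RCN : Prop := ∀ (ρ : Bool) (a w : ℕ) (L : List ℕ), (∀ i ∈ L, i + 2 ≤ w) →
  (GR (lp ρ a) w L ⊓ RNeg w = GR (lp ρ a) w L ⊓ RS (lp ρ a) (-1) w) ∧
  (GR (lp ρ a) w L ⊓ RPer w = GR (lp ρ a) w L ⊓ RS (lp ρ a) 1 w) ∧
  Module.finrank (ZMod 3) (GR (lp ρ a) w L ⊓ RCon ρ a w : Submodule (ZMod 3) (Rw w × Rw w)) =
    Module.finrank (ZMod 3) (GR (lp ρ a) w L ⊓ RPer w : Submodule (ZMod 3) (Rw w × Rw w)) +
      (if one ρ a w = true then 1 else 0)

/-- the degree contributed by an arc -/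
def bd (ρ : Bool) (τ k : ℤ) (a w : ℕ) (c : Bool) : ℤ := 4 * gn (lp ρ a) w - 2 * w + dph τ k w -
  (if c = true ∧ one ρ a w = true then 4 else 0)

/-- [CNF] the circle numbers in terms of the relations.
PROOF (from P1, CIRC, LOC, ENC). The closed word has no crossings, so it is a power of `δ` in every model (as in `TWC/CIR.lean`, from [P1]): `Ci` holds for some number, and so for `cn`. [CIRC] for `PL a P` (places `≤ n - 2`); [LOC]: `ge (PL a P) = ∑ ge`, and `Cq ρ u v S (GR ρ n (PL a P)) = VS ρ u v a w S (fun i => GR (lp ρ (a i)) (w i) (P i))`: for `p` in either, `mr p` is masked (the colouring vanishes on the other parity, `pa_tp`, `pa_bo`), the condition at the gaps not strictly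
inside of an arc is the one of `Out`, and `lr (mr p) = res p` (`Fin.ofNat` of numbers `≤ n`). `ge = ee + gn - finrank GR` by [ENC] (4). -/
def St_CNF : Prop := ∀ (B : ℕ → Bool) (u v : Word) (g : ℕ) (a w : Fin g → ℕ) (P : Fin g → List ℕ),
  Ok u 0 (wd 0 u) → Ok v (wd 0 u) 0 → (∀ i, a i + w i ≤ wd 0 u) →
  (∀ i j : Fin g, i < j → a i + w i ≤ a j) → (∀ i, ∀ j ∈ P i, j + 2 ≤ w i) →
  TMW.Ci (jo B u ++ EL (PL a P) ++ jo (fun k => B (k + nX u)) v)
    (TMW.cn (jo B u ++ EL (PL a P) ++ jo (fun k => B (k + nX u)) v)) ∧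
  ∀ ρ : Bool, (TMW.cn (jo B u ++ EL (PL a P) ++ jo (fun k => B (k + nX u)) v) : ℤ) =
    gam ρ B (u ++ v) - (if ρ = true then 2 else 0) +
    ∑ i, ((ee (lp ρ (a i)) (w i) (P i) : ℤ) + gn (lp ρ (a i)) (w i) -
      Module.finrank (ZMod 3) (GR (lp ρ (a i)) (w i) (P i))) +
    2 * (Module.finrank (ZMod 3) (VS ρ u v a w (Finset.univ.filter fun j => B (j : ℕ) = ρ)
      fun i => GR (lp ρ (a i)) (w i) (P i)) : ℤ)

/-- [DEG] the degree bound of all states.
PROOF (from CNF, XPW, XR, RCN, ENC, INQ). `Va` is the sum over the states `t i : Sx (w i) (k i)` of `(∏ xw) * loopVal ^ cn (..)` with `yw = EL (pl ..)` ([XPW]). Fix `N`, `R' i = cN ρ a w N i`. For relations `R i` put `#R = gam ρ B (u ++ v) - 2 [ρ = true] + ∑ (gn i - finrank (R i)) + 2 finrank VS S R` (an integer), `K` a natural number with `K + #R ≥ 0` for all `R i` (finitely many submodules). By [CNF] `cn = ∑ ee + #(GR (pl (t i)))`, so, grouping the `t` by their relations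
(`Finset.sum_fiberwise`, `Finset.prod_univ_sum`): `loopVal ^ K * Va = ∑_R (∏ i, xR (lp ρ (a i)) (w i) (k i) (R i)) * loopVal ^ (K + #R)`. For `R` with all `R i` of the form `GR (lp ..) (w i) L` (otherwise the product is `0`): by [XR], [RCN] `xR (R i)` has degree at most `2 (2 (finrank (R i ⊓ R' i) - ε i) + gn i - finrank (R i) - w i) + dph`, `ε i = 1` if `i ∉ N` and `one`,
else `0`. Degrees add up under products and `loopVal ^ j` adds `2 j` (`TMX/EXT.lean`): the term has degree at most `2 K + 2 gam - 4 [ρ = true] + ∑ (4 gn i - 2 w i + dph i - 4 ε i) + 4 (finrank VS S R + ∑ finrank (R i ⊓ R' i) - ∑ finrank (R i))`, and the last bracket is `≤ finrank VS S R'` by [INQ] (`VS` has exactly the form of [INQ]). Finally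
`Le τ (d + 2 K) (loopVal ^ K * p) → Le τ d p` (if not, take the largest `j > d` with `p.coeff (τ j) ≠ 0`, `top_pow` of `TMX/EXT.lean`). -/
def St_DEG : Prop := ∀ (ρ : Bool) (B : ℕ → Bool) (u v : Word) (g : ℕ) (a w : Fin g → ℕ) (k : Fin g → ℤ)
  (τ : ℤ), (τ = 1 ∨ τ = -1) → (∀ i, τ * k i < 0) →
  Ok u 0 (wd 0 u) → Ok v (wd 0 u) 0 → (∀ i, a i + w i ≤ wd 0 u) →
  (∀ i j : Fin g, i < j → a i + w i ≤ a j) →
  ∀ N : Finset (Fin g), Le τ (2 * gam ρ B (u ++ v) - (if ρ = true then 4 else 0) +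
    ∑ i, bd ρ τ (k i) (a i) (w i) (decide (i ∉ N)) +
    4 * (Module.finrank (ZMod 3) (VS ρ u v a w (Finset.univ.filter fun j => B (j : ℕ) = ρ)
      (cN ρ a w N)) : ℤ)) (TMW.Va B u v a w k)

end Pool.TMC
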