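import Pool.Agent.TMC.StC2
import Pool.Agent.ALT.Mo.HE

/-!
# TMC, module XPW (helper25): expansion of the full twists, states as lists of places
-/

set_option autoImplicit false

namespace Pool.TMC

open LaurentPolynomial Pool.Agent.ARB Pool.Agent.Helper2 Pool.ALT Pool.TWC Pool.TMX

/-! ### states of words -/

private theorem XPW_mem {n : ℕ} (r : Bool) (S : Finset (Fin n)) (k : ℕ) (hk : k < n)
    (h : (⟨k, hk⟩ : Fin n) ∈ S) : st r S k = r := by
  unfold st
  exact if_pos ⟨hk, h⟩

private theorem XPW_nmem {n : ℕ} (r : Bool) (S : Finset (Fin n)) (k : ℕ)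
    (h : ∀ hk : k < n, (⟨k, hk⟩ : Fin n) ∉ S) : st r S k = !r := by
  unfold st
  exact if_neg fun ⟨hk, h'⟩ => h hk h'

private theorem XPW_st0 {n : ℕ} (r : Bool) (A : Finset (Fin n)) :
    st r (A.map (Fin.succEmb n)) 0 = !r := by
  refine XPW_nmem r _ 0 fun hk h => ?_
  obtain ⟨k, -, hk⟩ := Finset.mem_map.1 h
  exact Fin.succ_ne_zero k hk

private theorem XPW_st1 {n : ℕ} (r : Bool) (A : Finset (Fin n)) :
    st r (insert 0 (A.map (Fin.succEmb n))) 0 = r :=
  XPW_mem r _ 0 (Nat.succ_pos n) (Finset.mem_insert_self _ _)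

private theorem XPW_sts {n : ℕ} (r : Bool) (A : Finset (Fin n)) (k : ℕ) :
    st r (A.map (Fin.succEmb n)) (k + 1) = st r A k := by
  by_cases h : ∃ hk : k < n, (⟨k, hk⟩ : Fin n) ∈ A
  · obtain ⟨hk, h⟩ := h
    rw [XPW_mem r A k hk h]
    exact XPW_mem r _ (k + 1) (by omega) (Finset.mem_map.2 ⟨⟨k, hk⟩, h, rfl⟩)
  · rw [XPW_nmem r A k fun hk h' => h ⟨hk, h'⟩]
    refine XPW_nmem r _ (k + 1) fun hk h' => ?_
    obtain ⟨k', hk', h1⟩ := Finset.mem_map.1 h'
    have h2 : k' = ⟨k, by omega⟩ := Fin.succ_injective n h1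
    rw [h2] at hk'
    exact h ⟨by omega, hk'⟩

private theorem XPW_sti {n : ℕ} (r : Bool) (A : Finset (Fin n)) (k : ℕ) :
    st r (insert 0 (A.map (Fin.succEmb n))) (k + 1) = st r A k := by
  by_cases h : ∃ hk : k < n, (⟨k, hk⟩ : Fin n) ∈ A
  · obtain ⟨hk, h⟩ := h
    rw [XPW_mem r A k hk h]
    exact XPW_mem r _ (k + 1) (by omega)
      (Finset.mem_insert_of_mem (Finset.mem_map.2 ⟨⟨k, hk⟩, h, rfl⟩))
  · rw [XPW_nmem r A k fun hk h' => h ⟨hk, h'⟩]
    refine XPW_nmem r _ (k + 1) fun hk h' => ?_
    rcases Finset.mem_insert.1 h' with h1 | h1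
    · exact absurd h1 (Fin.succ_ne_zero ⟨k, by omega⟩)
    · obtain ⟨k', hk', h2⟩ := Finset.mem_map.1 h1
      have h3 : k' = ⟨k, by omega⟩ := Fin.succ_injective n h2
      rw [h3] at hk'
      exact h ⟨by omega, hk'⟩

/-! ### words of crossings -/

/-- the expansion of a word of crossings -/
private theorem XPW_word {V : Type} [AddCommGroup V] [Module LP V] (M : Model LP V) (a : ℕ) :
    ∀ (W : Word) (x : V), (∀ s ∈ W, ∃ (i : ℕ) (p : Bool), s = pX i p) →
      runW M (sh a W) x = ∑ t : Finset (Fin (nX W)),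
        (T (TMW.wt (st true t) W) : LP) • runC M (EL ((pcs (st true t) W).map (· + a))) x
  | [], x, _ => by
      show x = ∑ t : Finset (Fin 0), (T 0 : LP) • x
      rw [Fintype.sum_eq_single (∅ : Finset (Fin 0))]
      · rw [T_zero, one_smul]
      · intro A hA
        exact absurd (Finset.eq_empty_of_isEmpty A) hA
  | ⟨.U, i⟩ :: W, x, h => by
      obtain ⟨j, p, hs⟩ := h _ List.mem_cons_self
      cases hs
  | ⟨.N, i⟩ :: W, x, h => by
      obtain ⟨j, p, hs⟩ := h _ List.mem_cons_self
      cases hs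
  | ⟨.X p, i⟩ :: W, x, h => by
      have ih : ∀ y, runW M (sh a W) y = ∑ t : Finset (Fin (nX W)),
          (T (TMW.wt (st true t) W) : LP) • runC M (EL ((pcs (st true t) W).map (· + a))) y :=
        fun y => XPW_word M a W y fun s hs => h s (List.mem_cons_of_mem _ hs)
      have hl : runW M (sh a (⟨.X p, i⟩ :: W)) x =
          (T (if p then 1 else -1) : LP) • runW M (sh a W) x +
          (T (if p then -1 else 1) : LP) • runW M (sh a W) (M.cup (i + a) (M.cap (i + a) x)) := by
        show runW M (sh a W) ((T (if p then 1 else -1) : LP) • x +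
          (T (if p then -1 else 1) : LP) • M.cup (i + a) (M.cap (i + a) x)) = _
        rw [map_add, map_smul, map_smul]
      show runW M (sh a (⟨.X p, i⟩ :: W)) x = ∑ t : Finset (Fin (nX W + 1)),
        (T (TMW.wt (st true t) (⟨.X p, i⟩ :: W)) : LP) •
          runC M (EL ((pcs (st true t) (⟨.X p, i⟩ :: W)).map (· + a))) x
      rw [hl, ih, ih, he_sum, Finset.smul_sum, Finset.smul_sum, ← Finset.sum_add_distrib]
      apply Finset.sum_congr rfl
      intro A _
      have w0 : TMW.wt (st true (A.map (Fin.succEmb (nX W)))) (⟨.X p, i⟩ :: W) =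
          (if (false = decide (i % 2 = 0)) ↔ p = true then -1 else 1) +
            TMW.wt (st true A) W := by
        show (if (st true (A.map (Fin.succEmb (nX W))) 0 = decide (i % 2 = 0)) ↔ p = true
          then -1 else 1) + TMW.wt (fun k => st true (A.map (Fin.succEmb (nX W))) (k + 1)) W = _
        rw [XPW_st0, funext (XPW_sts true A)]
        rfl
      have w1 : TMW.wt (st true (insert 0 (A.map (Fin.succEmb (nX W))))) (⟨.X p, i⟩ :: W) =
          (if (true = decide (i % 2 = 0)) ↔ p = true then -1 else 1) +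
            TMW.wt (st true A) W := by
        show (if (st true (insert 0 (A.map (Fin.succEmb (nX W)))) 0 = decide (i % 2 = 0)) ↔ p = true
          then -1 else 1) + TMW.wt
            (fun k => st true (insert 0 (A.map (Fin.succEmb (nX W)))) (k + 1)) W = _
        rw [XPW_st1, funext (XPW_sti true A)]
      have c0 : pcs (st true (A.map (Fin.succEmb (nX W)))) (⟨.X p, i⟩ :: W) =
          if false = decide (i % 2 = 0) then i :: pcs (st true A) W else pcs (st true A) W := by
        show (if st true (A.map (Fin.succEmb (nX W))) 0 = decide (i % 2 = 0) then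
          i :: pcs (fun k => st true (A.map (Fin.succEmb (nX W))) (k + 1)) W
          else pcs (fun k => st true (A.map (Fin.succEmb (nX W))) (k + 1)) W) = _
        rw [XPW_st0, funext (XPW_sts true A)]
        rfl
      have c1 : pcs (st true (insert 0 (A.map (Fin.succEmb (nX W))))) (⟨.X p, i⟩ :: W) =
          if true = decide (i % 2 = 0) then i :: pcs (st true A) W else pcs (st true A) W := by
        show (if st true (insert 0 (A.map (Fin.succEmb (nX W)))) 0 = decide (i % 2 = 0) then
          i :: pcs (fun k => st true (insert 0 (A.map (Fin.succEmb (nX W)))) (k + 1)) W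
          else pcs (fun k => st true (insert 0 (A.map (Fin.succEmb (nX W)))) (k + 1)) W) = _
        rw [XPW_st1, funext (XPW_sti true A)]
      have hh : runC M (EL ((i :: pcs (st true A) W).map (· + a))) x =
          runC M (EL ((pcs (st true A) W).map (· + a))) (M.cup (i + a) (M.cap (i + a) x)) := rfl
      rw [w0, w1, c0, c1, smul_smul, smul_smul, ← T_add, ← T_add]
      by_cases hi : i % 2 = 0
      · rw [decide_eq_true hi]
        simp only [reduceCtorEq, if_true, if_false, hh]
        cases p <;> simp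
      · rw [decide_eq_false hi]
        simp only [reduceCtorEq, if_true, if_false, hh]
        cases p <;> simp [add_comm]

private theorem XPW_jo : ∀ (W : Word) (B : ℕ → Bool), (∀ s ∈ W, ∃ (i : ℕ) (p : Bool), s = pX i p) →
    jo B W = EL (pcs B W)
  | [], _, _ => rfl
  | ⟨.U, i⟩ :: W, B, h => by
      obtain ⟨j, p, hs⟩ := h _ List.mem_cons_self
      cases hs
  | ⟨.N, i⟩ :: W, B, h => by
      obtain ⟨j, p, hs⟩ := h _ List.mem_cons_self
      cases hs
  | ⟨.X p, i⟩ :: W, B, h => by
      have ih := XPW_jo W (fun k => B (k + 1)) fun s hs => h s (List.mem_cons_of_mem _ hs)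
      show (if B 0 = decide (i % 2 = 0) then pN i :: pU i :: jo (fun k => B (k + 1)) W
        else jo (fun k => B (k + 1)) W) = EL (if B 0 = decide (i % 2 = 0) then
          i :: pcs (fun k => B (k + 1)) W else pcs (fun k => B (k + 1)) W)
      rw [ih]
      split_ifs <;> rfl

private theorem XPW_pcs (n : ℕ) : ∀ (W : Word) (B : ℕ → Bool),
    (∀ (i : ℕ) (p : Bool), pX i p ∈ W → i + 2 ≤ n) → ∀ i ∈ pcs B W, i + 2 ≤ n
  | [], _, _, i, hi => absurd hi List.not_mem_nil
  | ⟨.U, j⟩ :: W, B, h, i, hi =>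
      XPW_pcs n W B (fun i p hp => h i p (List.mem_cons_of_mem _ hp)) i hi
  | ⟨.N, j⟩ :: W, B, h, i, hi =>
      XPW_pcs n W B (fun i p hp => h i p (List.mem_cons_of_mem _ hp)) i hi
  | ⟨.X p, j⟩ :: W, B, h, i, hi => by
      have ih := XPW_pcs n W (fun k => B (k + 1))
        (fun i p hp => h i p (List.mem_cons_of_mem _ hp)) i
      have hi' : i ∈ (if B 0 = decide (j % 2 = 0) then
          j :: pcs (fun k => B (k + 1)) W else pcs (fun k => B (k + 1)) W) := hi
      split_ifs at hi'
      · rcases List.mem_cons.1 hi' with h1 | h1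
        · rw [h1]
          exact h j p List.mem_cons_self
        · exact ih h1
      · exact ih hi'

/-! ### the full twists -/

private theorem XPW_FT {w : ℕ} {k : ℤ} {s : Piece} (hs : s ∈ FT w k) :
    ∃ (i : ℕ) (p : Bool), s = pX i p ∧ i + 2 ≤ w := by
  unfold FT at hs
  obtain ⟨l, hl, hs⟩ := List.mem_flatten.1 hs
  rw [List.eq_of_mem_replicate hl] at hs
  unfold sweep at hs
  rw [List.mem_reverse] at hs
  obtain ⟨j, hj, h⟩ := List.mem_map.1 hs
  have := List.mem_range.1 hj
  exact ⟨j, _, h.symm, by omega⟩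

private theorem XPW_sh (a : ℕ) : ∀ P : List ℕ, sh a (EL P) = EL (P.map (· + a))
  | [] => rfl
  | i :: P => by
      have ih := XPW_sh a P
      show (⟨.N, i + a⟩ : Piece) :: ⟨.U, i + a⟩ :: sh a (EL P) =
        ⟨.N, i + a⟩ :: ⟨.U, i + a⟩ :: EL (P.map (· + a))
      rw [ih]

private theorem XPW_EL (L : List (List ℕ)) : EL L.flatten = (L.map EL).flatten := by
  induction L with
  | nil => rfl
  | cons P L ih =>
      rw [List.flatten_cons, List.map_cons, List.flatten_cons, ← ih]
      unfold EL
      exact List.flatMap_append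

/-- [XPW] expansion of the full twists -/
theorem thm_XPW : St_XPW := by
  refine ⟨fun V _ _ M a w k x => ?_, fun w k t => ⟨?_, ?_⟩, XPW_sh, fun g a P => ?_⟩
  · exact XPW_word M a (FT w k) x fun s hs => by
      obtain ⟨i, p, h, -⟩ := XPW_FT hs
      exact ⟨i, p, h⟩
  · exact XPW_jo (FT w k) (st true t) fun s hs => by
      obtain ⟨i, p, h, -⟩ := XPW_FT hs
      exact ⟨i, p, h⟩
  · refine XPW_pcs w (FT w k) (st true t) fun i p hp => ?_
    obtain ⟨i', p', h, h'⟩ := XPW_FT hp
    have e : i = i' := congrArg Piece.i h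
    omega
  · unfold TMW.Yw PL
    rw [XPW_EL, List.map_ofFn]
    congr 1
    congr 1
    funext i
    exact XPW_sh (a i) (P i)

end Pool.TMC
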